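import Mathlib
import Pool.Agent.CFS.B.QMain

/-!
# MP_be5eee_co: the conjectured bound without epsilon for block-conformal surfaces, k = 2

The ambient space is `X × X` with `X = ∏ t, X t`, of dimension `d = 2 ∑ dim (X t)`; the surface
with index `i` is the graph `y t = B i t (x t) + h i t (x t)` (for all blocks `t`), of dimension
`d / 2`.  The maps `B i t` are linear; the (nonlinear) maps `h i t` satisfy a Lipschitz condition
for the differences, `h i t - h j t` is `ε ‖B i t - B j t‖`-Lipschitz at the points of `P`.  Two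
surfaces with different indices which share a point of `P` have in every block a nonzero
`K`-conformal difference `B i t - B j t`.
-/

namespace Pool.Agent.Results.MP_be5eee_co.ConformalSurfaces

open Classical

theorem result (κ : Type) [Fintype κ] (X : κ → Type) [∀ t, NormedAddCommGroup (X t)]
    [∀ t, NormedSpace ℝ (X t)] [∀ t, FiniteDimensional ℝ (X t)] (K : ℝ) :
    ∃ ε : ℝ, 0 < ε ∧ ∃ A : ℝ, ∀ {ι : Type} (I : Finset ι)
      (P : Finset (((t : κ) → X t) × ((t : κ) → X t)))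
      (B : ι → (t : κ) → (X t →L[ℝ] X t)) (h : ι → (t : κ) → X t → X t),
      (∀ i ∈ I, ∀ j ∈ I, ∀ t, ∀ p ∈ P, ∀ q ∈ P,
        ‖(h i t (p.1 t) - h j t (p.1 t)) - (h i t (q.1 t) - h j t (q.1 t))‖ ≤
          ε * (‖B i t - B j t‖ * ‖p.1 t - q.1 t‖)) →
      (∀ i ∈ I, ∀ j ∈ I, i ≠ j → ∀ p ∈ P,
        (∀ t, p.2 t = B i t (p.1 t) + h i t (p.1 t)) →
        (∀ t, p.2 t = B j t (p.1 t) + h j t (p.1 t)) →
        ∀ t, B i t ≠ B j t ∧ ∀ u w : X t,
          ‖(B i t - B j t) u‖ * ‖w‖ ≤ K * (‖(B i t - B j t) w‖ * ‖u‖)) →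
      ((∑ p ∈ P, (I.filter (fun i => ∀ t, p.2 t = B i t (p.1 t) + h i t (p.1 t))).card : ℕ) : ℝ) ≤
        A * ((P.card : ℝ) ^ (2 / 3 : ℝ) * (I.card : ℝ) ^ (2 / 3 : ℝ) + P.card + I.card) :=
  CFS.q_main κ X K

end Pool.Agent.Results.MP_be5eee_co.ConformalSurfaces
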